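import Pool.Agent.Lib.Helper67.FCC.Growth
import Pool.Agent.Lib.Helper67.FCC.Rational

/-!
# Finitely presented groups with finitely many conjugacy classes

Structure of finitely presented infinite groups with finitely many conjugacy classes (finitely
presented monsters of type (6)): reduction to uniformly simple groups, uniform infinite
divisibility of `M`-th powers, exponential distortion of all cyclic subgroups, vanishing of
homogeneous quasimorphisms, and the alternative: bounded exponent (type (2)), or a copy of the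
additive group of rationals together with exponential growth.
-/

namespace Pool.Agent.Results.MP_65b575_al.FiniteClasses

open Pool.Agent.Lib.Helper67.FCC

universe u

/-- Every homogeneous quasimorphism on `G` vanishes. -/
def NoQuasimorphism (G : Type u) [Group G] : Prop :=
  ∀ f : G → ℝ, (∃ D : ℝ, ∀ x y : G, |f (x * y) - f x - f y| ≤ D) →
    (∀ (x : G) (n : ℕ), f (x ^ n) = n * f x) → ∀ x : G, f x = 0

/-- There are `M, e ≥ 1` such that for every `g` the power `g ^ M` is the image of `1` under a
homomorphism from the additive group of rationals (so it has roots of all orders), and is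
conjugate to its `m ^ e`-th power for all `m ≥ 1`. -/
def UniformlyDivisible (G : Type u) [Group G] : Prop :=
  ∃ M e : ℕ, 1 ≤ M ∧ 1 ≤ e ∧ ∀ g : G,
    (∃ ψ : Multiplicative ℚ →* G, ψ (Multiplicative.ofAdd 1) = g ^ M) ∧
    ∀ m : ℕ, 1 ≤ m → IsConj (g ^ M) ((g ^ M) ^ (m ^ e))

/-- Every cyclic subgroup is at most logarithmically large: for every finite generating set `S`
and every `g` the word length of `g ^ n` is at most `C (log_2 n + 1)`. -/
def Distorted (G : Type u) [Group G] : Prop :=
  ∀ S : Set G, S.Finite → Subgroup.closure S = ⊤ → ∀ g : G, ∃ C : ℕ, ∀ n : ℕ,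
    InBall S (C * (Nat.log 2 n + 1)) (g ^ n)

/-- Bounded exponent. -/
def BoundedExponent (G : Type u) [Group G] : Prop := ∃ n : ℕ, 1 ≤ n ∧ ∀ g : G, g ^ n = 1

/-- `G` contains a copy of the additive group of rational numbers, and the growth function of `G`
for every finite generating set is bounded below by `exp (c r)` for some `c > 0`. -/
def RationalsAndExpGrowth (G : Type u) [Group G] : Prop :=
  (∃ ψ : Multiplicative ℚ →* G, Function.Injective ψ) ∧
  ∀ S : Set G, S.Finite → Subgroup.closure S = ⊤ → ∃ c : ℝ, 0 < c ∧ ∀ r : ℕ,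
    Real.exp (c * r) ≤ (Set.ncard {x : G | InBall S r x} : ℝ)

/-- The structure obtained for a group with finitely many conjugacy classes. -/
def Structured (G : Type u) [Group G] : Prop :=
  UniformlyDivisible G ∧ Distorted G ∧ NoQuasimorphism G ∧
    (BoundedExponent G ∨ RationalsAndExpGrowth G)

theorem structured (G : Type u) [Group G] [hG : Finite (ConjClasses G)] : Structured G := by
  classical
  obtain ⟨M, e, A, hM, he, hA1, hA2, hA3⟩ := exists_recurrent' (G := G)
  refine ⟨⟨M, e, hM, he, fun g => ⟨exists_hom_of_roots hA2 (hA1 g), hA3 _ (hA1 g)⟩⟩,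
    fun S _ hS g => distortion hS g, ?_, ?_⟩
  · rintro f ⟨D, hD⟩ hf x
    obtain ⟨a, k, t, ha, hk, ht⟩ := exists_conj_pow x
    have h1 : ∀ n : ℕ, ((k : ℝ) - 1) * n * |f (x ^ a)| ≤ 2 * D + |f t| + |f t⁻¹| := by
      intro n
      have h2 : t * (x ^ a) ^ n * t⁻¹ = (x ^ a) ^ (k * n) := by
        rw [← conj_pow, ht, ← pow_mul]
      have h3 := hD (t * (x ^ a) ^ n) t⁻¹
      have h4 := hD t ((x ^ a) ^ n)
      rw [h2, hf] at h3
      rw [hf (x ^ a) n] at h4
      have h50 : 0 ≤ ((k : ℝ) - 1) * n := by
        have h51 : (2 : ℝ) ≤ k := by exact_mod_cast hk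
        have h52 : (0 : ℝ) ≤ n := by positivity
        exact mul_nonneg (by linarith) h52
      have h5 : ((k : ℝ) - 1) * n * |f (x ^ a)| = |((k : ℝ) - 1) * n * f (x ^ a)| := by
        rw [abs_mul, abs_of_nonneg h50]
      rw [h5]
      push_cast at h3
      have h6 : ((k : ℝ) - 1) * n * f (x ^ a) =
          (k * n * f (x ^ a) - f (t * (x ^ a) ^ n) - f t⁻¹) +
          (f (t * (x ^ a) ^ n) - f t - n * f (x ^ a)) + f t + f t⁻¹ := by ring
      rw [h6]
      calc |(k * n * f (x ^ a) - f (t * (x ^ a) ^ n) - f t⁻¹) +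
            (f (t * (x ^ a) ^ n) - f t - n * f (x ^ a)) + f t + f t⁻¹|
          ≤ |(k * n * f (x ^ a) - f (t * (x ^ a) ^ n) - f t⁻¹) +
            (f (t * (x ^ a) ^ n) - f t - n * f (x ^ a)) + f t| + |f t⁻¹| := abs_add_le _ _
        _ ≤ |(k * n * f (x ^ a) - f (t * (x ^ a) ^ n) - f t⁻¹) +
            (f (t * (x ^ a) ^ n) - f t - n * f (x ^ a))| + |f t| + |f t⁻¹| := by
            gcongr; exact abs_add_le _ _
        _ ≤ |k * n * f (x ^ a) - f (t * (x ^ a) ^ n) - f t⁻¹| +
            |f (t * (x ^ a) ^ n) - f t - n * f (x ^ a)| + |f t| + |f t⁻¹| := by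
            gcongr; exact abs_add_le _ _
        _ ≤ 2 * D + |f t| + |f t⁻¹| := by linarith
    have h7 : f (x ^ a) = 0 := by
      by_contra hne
      have h8 : 0 < |f (x ^ a)| := abs_pos.2 hne
      have h9 : (2 : ℝ) ≤ k := by exact_mod_cast hk
      obtain ⟨n, hn⟩ := exists_nat_gt ((2 * D + |f t| + |f t⁻¹|) / |f (x ^ a)|)
      rw [div_lt_iff₀ h8] at hn
      have h10 := h1 n
      have h11 : (0 : ℝ) ≤ n := by positivity
      nlinarith [mul_nonneg h11 h8.le]
    rw [hf] at h7
    rcases mul_eq_zero.1 h7 with h8 | h8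
    · have : (1 : ℝ) ≤ a := by exact_mod_cast ha
      linarith
    · exact h8
  · by_cases htor : ∀ g : G, ∃ n : ℕ, 0 < n ∧ g ^ n = 1
    · left
      choose o ho1 ho2 using htor
      have hfin : Fintype (ConjClasses G) := Fintype.ofFinite _
      let r : ConjClasses G → G := fun c => Quotient.out c
      have hr : ∀ g : G, IsConj (r (ConjClasses.mk g)) g := fun g => by
        rw [← ConjClasses.mk_eq_mk_iff_isConj]
        exact Quotient.out_eq (ConjClasses.mk g)
      refine ⟨∏ c : ConjClasses G, o (r c), Finset.prod_pos fun c _ => ho1 _, fun g => ?_⟩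
      obtain ⟨t, ht⟩ := isConj_iff.1 (hr g)
      obtain ⟨d, hd⟩ := Finset.dvd_prod_of_mem (fun c : ConjClasses G => o (r c))
        (Finset.mem_univ (ConjClasses.mk g))
      have h1 : g ^ o (r (ConjClasses.mk g)) = 1 := by
        have h2 := ho2 (r (ConjClasses.mk g))
        have h3 : ∀ (b : G) (n : ℕ), t * b * t⁻¹ = g → b ^ n = 1 → g ^ n = 1 := by
          rintro b n rfl h4
          rw [conj_pow, h4]
          simp
        exact h3 _ _ ht h2
      rw [hd, pow_mul, h1, one_pow]
    · right
      push Not at htor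
      obtain ⟨g, hg⟩ := htor
      have hgM : ∀ n : ℕ, 0 < n → (g ^ M) ^ n ≠ 1 := by
        intro n hn
        rw [← pow_mul]
        exact hg _ (Nat.mul_pos hM hn)
      obtain ⟨ψ, hψ⟩ := exists_hom_of_roots hA2 (hA1 g)
      refine ⟨⟨ψ, injective_of_infinite_order ?_⟩, fun S hSf hS => growth hSf hS hg⟩
      intro n hn
      rw [hψ]
      exact hgM n hn

/-- **Structure of finitely presented monsters of type (6).** -/
theorem result (G : Type u) [Group G] (hfp : Group.IsFinitelyPresented G) (hinf : Infinite G)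
    (hcc : Finite (ConjClasses G)) :
    Structured G ∧
    ∃ (R : Subgroup G) (N : Subgroup R) (_ : N.Normal), R.Normal ∧ R.FiniteIndex ∧
      Group.IsFinitelyPresented (R ⧸ N) ∧ Infinite (R ⧸ N) ∧ Finite (ConjClasses (R ⧸ N)) ∧
      UniformlySimple (R ⧸ N) ∧ Structured (R ⧸ N) := by
  obtain ⟨R, N, hN, hRn, hRf, hs, hi, hp, hc⟩ := exists_simple (G := G)
  exact ⟨structured G, R, N, hN, hRn, hRf, hp, hi, hc, uniformlySimple, structured (R ⧸ N)⟩

end Pool.Agent.Results.MP_65b575_al.FiniteClasses
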